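import Pool.Agent.Work.MP_f1799f_co.LP.CE.Data
set_option linter.defProp false
namespace Pool.Agent.Work.MP_f1799f_co.LP.CE
noncomputable section
def ck12 : chkAll cl12 = true := by decide +kernel
def ck28 : chkAll cl28 = true := by decide +kernel
def ck44 : chkAll cl44 = true := by decide +kernel
def ck60 : chkAll cl60 = true := by decide +kernel
def ck76 : chkAll cl76 = true := by decide +kernel
def ck92 : chkAll cl92 = true := by decide +kernel
def ck108 : chkAll cl108 = true := by decide +kernel
def ck124 : chkAll cl124 = true := by decide +kernel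
def ck140 : chkAll cl140 = true := by decide +kernel
def ck156 : chkAll cl156 = true := by decide +kernel
def ck172 : chkAll cl172 = true := by decide +kernel
def ck188 : chkAll cl188 = true := by decide +kernel
def ck204 : chkAll cl204 = true := by decide +kernel
def ck220 : chkAll cl220 = true := by decide +kernel
def ck236 : chkAll cl236 = true := by decide +kernel
theorem ckG12 : ∀ c ∈ clG12, chkAll c = true :=
  (List.forall_mem_cons.2 ⟨ck12,
    (List.forall_mem_cons.2 ⟨ck28,
    (List.forall_mem_cons.2 ⟨ck44,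
    (List.forall_mem_cons.2 ⟨ck60,
    (List.forall_mem_cons.2 ⟨ck76,
    (List.forall_mem_cons.2 ⟨ck92,
    (List.forall_mem_cons.2 ⟨ck108,
    (List.forall_mem_cons.2 ⟨ck124,
    (List.forall_mem_cons.2 ⟨ck140,
    (List.forall_mem_cons.2 ⟨ck156,
    (List.forall_mem_cons.2 ⟨ck172,
    (List.forall_mem_cons.2 ⟨ck188,
    (List.forall_mem_cons.2 ⟨ck204,
    (List.forall_mem_cons.2 ⟨ck220,
    (List.forall_mem_cons.2 ⟨ck236,
    (fun _ h => nomatch h)⟩)⟩)⟩)⟩)⟩)⟩)⟩)⟩)⟩)⟩)⟩)⟩)⟩)⟩)⟩)
end
end Pool.Agent.Work.MP_f1799f_co.LP.CE
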