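import Pool.Agent.Work.MP_f1799f_co.LP.CE.Data
set_option linter.defProp false
namespace Pool.Agent.Work.MP_f1799f_co.LP.CE
noncomputable section
def ck14 : chkAll cl14 = true := by decide +kernel
def ck30 : chkAll cl30 = true := by decide +kernel
def ck46 : chkAll cl46 = true := by decide +kernel
def ck62 : chkAll cl62 = true := by decide +kernel
def ck78 : chkAll cl78 = true := by decide +kernel
def ck94 : chkAll cl94 = true := by decide +kernel
def ck110 : chkAll cl110 = true := by decide +kernel
def ck126 : chkAll cl126 = true := by decide +kernel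
def ck142 : chkAll cl142 = true := by decide +kernel
def ck158 : chkAll cl158 = true := by decide +kernel
def ck174 : chkAll cl174 = true := by decide +kernel
def ck190 : chkAll cl190 = true := by decide +kernel
def ck206 : chkAll cl206 = true := by decide +kernel
def ck222 : chkAll cl222 = true := by decide +kernel
def ck238 : chkAll cl238 = true := by decide +kernel
theorem ckG14 : ∀ c ∈ clG14, chkAll c = true :=
  (List.forall_mem_cons.2 ⟨ck14,
    (List.forall_mem_cons.2 ⟨ck30,
    (List.forall_mem_cons.2 ⟨ck46,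
    (List.forall_mem_cons.2 ⟨ck62,
    (List.forall_mem_cons.2 ⟨ck78,
    (List.forall_mem_cons.2 ⟨ck94,
    (List.forall_mem_cons.2 ⟨ck110,
    (List.forall_mem_cons.2 ⟨ck126,
    (List.forall_mem_cons.2 ⟨ck142,
    (List.forall_mem_cons.2 ⟨ck158,
    (List.forall_mem_cons.2 ⟨ck174,
    (List.forall_mem_cons.2 ⟨ck190,
    (List.forall_mem_cons.2 ⟨ck206,
    (List.forall_mem_cons.2 ⟨ck222,
    (List.forall_mem_cons.2 ⟨ck238,
    (fun _ h => nomatch h)⟩)⟩)⟩)⟩)⟩)⟩)⟩)⟩)⟩)⟩)⟩)⟩)⟩)⟩)⟩)
end
end Pool.Agent.Work.MP_f1799f_co.LP.CE
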