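import Pool.Agent.Work.MP_f1799f_co.LP.CE.Data
set_option linter.defProp false
namespace Pool.Agent.Work.MP_f1799f_co.LP.CE
noncomputable section
def ck15 : chkAll cl15 = true := by decide +kernel
def ck31 : chkAll cl31 = true := by decide +kernel
def ck47 : chkAll cl47 = true := by decide +kernel
def ck63 : chkAll cl63 = true := by decide +kernel
def ck79 : chkAll cl79 = true := by decide +kernel
def ck95 : chkAll cl95 = true := by decide +kernel
def ck111 : chkAll cl111 = true := by decide +kernel
def ck127 : chkAll cl127 = true := by decide +kernel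
def ck143 : chkAll cl143 = true := by decide +kernel
def ck159 : chkAll cl159 = true := by decide +kernel
def ck175 : chkAll cl175 = true := by decide +kernel
def ck191 : chkAll cl191 = true := by decide +kernel
def ck207 : chkAll cl207 = true := by decide +kernel
def ck223 : chkAll cl223 = true := by decide +kernel
def ck239 : chkAll cl239 = true := by decide +kernel
theorem ckG15 : ∀ c ∈ clG15, chkAll c = true :=
  (List.forall_mem_cons.2 ⟨ck15,
    (List.forall_mem_cons.2 ⟨ck31,
    (List.forall_mem_cons.2 ⟨ck47,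
    (List.forall_mem_cons.2 ⟨ck63,
    (List.forall_mem_cons.2 ⟨ck79,
    (List.forall_mem_cons.2 ⟨ck95,
    (List.forall_mem_cons.2 ⟨ck111,
    (List.forall_mem_cons.2 ⟨ck127,
    (List.forall_mem_cons.2 ⟨ck143,
    (List.forall_mem_cons.2 ⟨ck159,
    (List.forall_mem_cons.2 ⟨ck175,
    (List.forall_mem_cons.2 ⟨ck191,
    (List.forall_mem_cons.2 ⟨ck207,
    (List.forall_mem_cons.2 ⟨ck223,
    (List.forall_mem_cons.2 ⟨ck239,
    (fun _ h => nomatch h)⟩)⟩)⟩)⟩)⟩)⟩)⟩)⟩)⟩)⟩)⟩)⟩)⟩)⟩)⟩)
end
end Pool.Agent.Work.MP_f1799f_co.LP.CE
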