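import Pool.Agent.Work.MP_f1799f_co.LP.CE.Data
set_option linter.defProp false
namespace Pool.Agent.Work.MP_f1799f_co.LP.CE
noncomputable section
def ck3 : chkAll cl3 = true := by decide +kernel
def ck19 : chkAll cl19 = true := by decide +kernel
def ck35 : chkAll cl35 = true := by decide +kernel
def ck51 : chkAll cl51 = true := by decide +kernel
def ck67 : chkAll cl67 = true := by decide +kernel
def ck83 : chkAll cl83 = true := by decide +kernel
def ck99 : chkAll cl99 = true := by decide +kernel
def ck115 : chkAll cl115 = true := by decide +kernel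
def ck131 : chkAll cl131 = true := by decide +kernel
def ck147 : chkAll cl147 = true := by decide +kernel
def ck163 : chkAll cl163 = true := by decide +kernel
def ck179 : chkAll cl179 = true := by decide +kernel
def ck195 : chkAll cl195 = true := by decide +kernel
def ck211 : chkAll cl211 = true := by decide +kernel
def ck227 : chkAll cl227 = true := by decide +kernel
def ck243 : chkAll cl243 = true := by decide +kernel
theorem ckG3 : ∀ c ∈ clG3, chkAll c = true :=
  (List.forall_mem_cons.2 ⟨ck3,
    (List.forall_mem_cons.2 ⟨ck19,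
    (List.forall_mem_cons.2 ⟨ck35,
    (List.forall_mem_cons.2 ⟨ck51,
    (List.forall_mem_cons.2 ⟨ck67,
    (List.forall_mem_cons.2 ⟨ck83,
    (List.forall_mem_cons.2 ⟨ck99,
    (List.forall_mem_cons.2 ⟨ck115,
    (List.forall_mem_cons.2 ⟨ck131,
    (List.forall_mem_cons.2 ⟨ck147,
    (List.forall_mem_cons.2 ⟨ck163,
    (List.forall_mem_cons.2 ⟨ck179,
    (List.forall_mem_cons.2 ⟨ck195,
    (List.forall_mem_cons.2 ⟨ck211,
    (List.forall_mem_cons.2 ⟨ck227,
    (List.forall_mem_cons.2 ⟨ck243,
    (fun _ h => nomatch h)⟩)⟩)⟩)⟩)⟩)⟩)⟩)⟩)⟩)⟩)⟩)⟩)⟩)⟩)⟩)⟩)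
end
end Pool.Agent.Work.MP_f1799f_co.LP.CE
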