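import Pool.Agent.Work.MP_f1799f_co.Ver0
import Pool.Agent.Work.MP_f1799f_co.LP.CE.Data
set_option linter.defProp false
namespace Pool.Agent.Work.MP_f1799f_co.LP.CE
noncomputable section
def v_r0 : allN 64 (fun i => forceB (64 * 0 + i) fun g => Nat.beq (rowff g) (rowC gcL g)) =
    true := by decide +kernel
def v_r1 : allN 64 (fun i => forceB (64 * 1 + i) fun g => Nat.beq (rowff g) (rowC gcL g)) =
    true := by decide +kernel
def v_r2 : allN 64 (fun i => forceB (64 * 2 + i) fun g => Nat.beq (rowff g) (rowC gcL g)) =
    true := by decide +kernel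
def v_r3 : allN 64 (fun i => forceB (64 * 3 + i) fun g => Nat.beq (rowff g) (rowC gcL g)) =
    true := by decide +kernel
def v_r4 : allN 64 (fun i => forceB (64 * 4 + i) fun g => Nat.beq (rowff g) (rowC gcL g)) =
    true := by decide +kernel
def v_r5 : allN 64 (fun i => forceB (64 * 5 + i) fun g => Nat.beq (rowff g) (rowC gcL g)) =
    true := by decide +kernel
def v_r6 : allN 64 (fun i => forceB (64 * 6 + i) fun g => Nat.beq (rowff g) (rowC gcL g)) =
    true := by decide +kernel
def v_r7 : allN 64 (fun i => forceB (64 * 7 + i) fun g => Nat.beq (rowff g) (rowC gcL g)) =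
    true := by decide +kernel
end
end Pool.Agent.Work.MP_f1799f_co.LP.CE
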