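import Pool.Agent.Work.MP_f1799f_co.LP.Obj
import Pool.Agent.Work.MP_f1799f_co.Ver1
import Pool.Agent.Work.MP_f1799f_co.Ver2
import Pool.Agent.Work.MP_f1799f_co.Ver3
import Pool.Agent.Work.MP_f1799f_co.Ver5
import Pool.Agent.Work.MP_f1799f_co.LP.CE.Ver1
import Pool.Agent.Work.MP_f1799f_co.LP.CE.VerR0
import Pool.Agent.Work.MP_f1799f_co.LP.CE.VerR1
import Pool.Agent.Work.MP_f1799f_co.LP.CE.ChkAll
/-! Assembly of the checks of one certificate. -/
namespace Pool.Agent.Work.MP_f1799f_co.LP.CE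

theorem v_r : ∀ g < 1024, rowff g = rowC gcL g := by
  intro g hg
  have := allN_split (m := 64) (k := 16)
    (p := fun g => forceB g fun g => Nat.beq (rowff g) (rowC gcL g)) (fun c hc => ?_) g hg
  · rw [forceB_eq] at this
    exact Nat.eq_of_beq_eq_true this
  match c, hc with
  | 0, _ => exact v_r0
  | 1, _ => exact v_r1
  | 2, _ => exact v_r2
  | 3, _ => exact v_r3
  | 4, _ => exact v_r4
  | 5, _ => exact v_r5
  | 6, _ => exact v_r6
  | 7, _ => exact v_r7
  | 8, _ => exact v_r8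
  | 9, _ => exact v_r9
  | 10, _ => exact v_r10
  | 11, _ => exact v_r11
  | 12, _ => exact v_r12
  | 13, _ => exact v_r13
  | 14, _ => exact v_r14
  | 15, _ => exact v_r15
  | _ + 16, h => omega

theorem data_ok : DOk vcf vbf gcL b3 cmax 0 p5L wdf rowff where
  hv := fun s => look_ZS s vcL fun e he => ZS_of_chk (List.all_eq_true.mp v_vc e he)
  hz := ZS_of_chk v_gc
  hg := fun c hc => Nat.eq_of_beq_eq_true (List.all_eq_true.mp v_sw c hc)
  hp := v_p5
  hw := fun tau h1 h2 => by
    have : ∀ t < 16, tauOk t = true → t = 0 ∨ t = 1 ∨ t = 3 ∨ t = 7 := by decide +kernel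
    rcases this tau h1 h2 with rfl | rfl | rfl | rfl
    · exact allN_spec v_w0
    · exact allN_spec v_w1
    · exact allN_spec v_w3
    · exact allN_spec v_w7
  hr := v_r
  n1 := v_n1
  n2 := v_n2
  n3 := Nat.zero_le _

theorem cert : CertStmt mE 32602000 :=
  finite_bound2 data_ok v_tu (f := ff) (nth_le v_f) v_kc (cl := clL)
    (fun c hc => allL_spec (ck_all c hc)) v_tc v_p v_c5 v_c6 (K := 5040) (by norm_num)
    (by decide +kernel) (by decide +kernel)

end Pool.Agent.Work.MP_f1799f_co.LP.CE
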